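import Pool.Agent.helper11.SG.Square
import Pool.Agent.helper11.SG.Poly
import Pool.Agent.helper11.SG.Prime

/-! # Large independent sets in the graph of a linear complex of `PG(3, q)` for every `q` -/

namespace Pool.Agent.Results.MP_f27806_co.AllPrimePowers

open scoped LinearAlgebra.Projectivization
open Pool.Agent.helper11.SG

/-- `L` is a line of the linear complex of `f`: it is spanned by two linearly independent vectors
`u`, `v` with `f u v = 0`. -/
def IsComplexLine {K : Type*} [Field K] (f : LinearMap.BilinForm K (Fin 4 → K))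
    (L : Submodule K (Fin 4 → K)) : Prop :=
  ∃ u v : Fin 4 → K, LinearIndependent K ![u, v] ∧ L = Submodule.span K {u, v} ∧ f u v = 0

/-- The graph on the points of `PG(3, K)`: two distinct points are adjacent when the line joining
them belongs to the linear complex of `f`. -/
def complexGraph {K : Type*} [Field K] (f : LinearMap.BilinForm K (Fin 4 → K)) :
    SimpleGraph (ℙ K (Fin 4 → K)) where
  Adj x y := x ≠ y ∧ IsComplexLine f (x.submodule ⊔ y.submodule)
  symm := ⟨fun x y h => ⟨h.1.symm, by rw [sup_comm]; exact h.2⟩⟩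
  loopless := ⟨fun x h => h.1 rfl⟩

section field

variable {K : Type*} [Field K] (f : LinearMap.BilinForm K (Fin 4 → K))

lemma exists_frame (ha : f.IsAlt) (hn : f.Nondegenerate) :
    ∃ e1 e2 e3 e4 : Fin 4 → K, f e1 e4 = 1 ∧ f e2 e3 = -1 ∧ f e1 e2 = 0 ∧ f e1 e3 = 0 ∧
      f e4 e2 = 0 ∧ f e4 e3 = 0 := by
  have key : ∀ x : Fin 4 → K, x ≠ 0 → ∃ y, f x y ≠ 0 := by
    intro x hx
    by_contra h
    push Not at h
    exact hx (hn.1 x h)
  obtain ⟨e1, he1'⟩ : ∃ e1 : Fin 4 → K, e1 ≠ 0 := by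
    refine ⟨Pi.single 0 1, ?_⟩
    intro h
    have := congrFun h 0
    simp at this
  obtain ⟨y, hy⟩ := key e1 he1'
  obtain ⟨e4, h14⟩ : ∃ e4, f e1 e4 = 1 :=
    ⟨(f e1 y)⁻¹ • y, by rw [map_smul, smul_eq_mul, inv_mul_cancel₀ hy]⟩
  have hlt : Module.finrank K (Fin 2 → K) < Module.finrank K (Fin 4 → K) := by
    simp
  obtain ⟨e2, he2, he2'⟩ := (Submodule.ne_bot_iff _).1
    (LinearMap.ker_ne_bot_of_finrank_lt (f := LinearMap.pi ![f e1, f e4]) hlt)
  rw [LinearMap.mem_ker] at he2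
  have h12 : f e1 e2 = 0 := by simpa using congrFun he2 0
  have h42 : f e4 e2 = 0 := by simpa using congrFun he2 1
  obtain ⟨z, hz⟩ := key e2 he2'
  set z' : Fin 4 → K := z + (f e4 z) • e1 - (f e1 z) • e4 with hz'
  have h41 : f e4 e1 = -1 := by
    rw [← ha.neg_eq, h14]
  have h1z : f e1 z' = 0 := by
    rw [hz', map_sub, map_add, map_smul, map_smul, h14, ha.self_eq_zero]; simp
  have h4z : f e4 z' = 0 := by
    rw [hz', map_sub, map_add, map_smul, map_smul, h41, ha.self_eq_zero]; simp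
  have h2z : f e2 z' = f e2 z := by
    rw [hz', map_sub, map_add, map_smul, map_smul]
    have h21 : f e2 e1 = 0 := by rw [← ha.neg_eq, h12, neg_zero]
    have h24 : f e2 e4 = 0 := by rw [← ha.neg_eq, h42, neg_zero]
    rw [h21, h24]; simp
  refine ⟨e1, e2, (-(f e2 z)⁻¹) • z', e4, h14, ?_, h12, ?_, h42, ?_⟩
  · rw [map_smul, h2z, smul_eq_mul]
    field_simp
  · rw [map_smul, h1z, smul_zero]
  · rw [map_smul, h4z, smul_zero]

lemma adj_zero (ha : f.IsAlt) {x y : Fin 4 → K} {hx : x ≠ 0} {hy : y ≠ 0}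
    (h : (complexGraph f).Adj (Projectivization.mk K x hx) (Projectivization.mk K y hy)) :
    f x y = 0 := by
  obtain ⟨-, u, v, -, hL, huv⟩ := h
  rw [Projectivization.submodule_mk, Projectivization.submodule_mk] at hL
  have hx' : x ∈ Submodule.span K {u, v} := by
    rw [← hL]
    exact Submodule.mem_sup_left (Submodule.mem_span_singleton_self x)
  have hy' : y ∈ Submodule.span K {u, v} := by
    rw [← hL]
    exact Submodule.mem_sup_right (Submodule.mem_span_singleton_self y)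
  obtain ⟨a, b, rfl⟩ := Submodule.mem_span_pair.1 hx'
  obtain ⟨c, d, rfl⟩ := Submodule.mem_span_pair.1 hy'
  have hvu : f v u = 0 := by rw [← ha.neg_eq, huv, neg_zero]
  simp [map_add, map_smul, ha.self_eq_zero, huv, hvu]

end field

/-- the symplectic value of two affine points -/
lemma form_value {K : Type*} [Field K] (f : LinearMap.BilinForm K (Fin 4 → K)) (ha : f.IsAlt)
    {e1 e2 e3 e4 : Fin 4 → K} (h14 : f e1 e4 = 1) (h23 : f e2 e3 = -1) (h12 : f e1 e2 = 0)
    (h13 : f e1 e3 = 0) (h42 : f e4 e2 = 0) (h43 : f e4 e3 = 0) (a b c a' b' c' : K) :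
    f (e1 + a • e2 + b • e3 + c • e4) (e1 + a' • e2 + b' • e3 + c' • e4) =
      c' - c - (a * b' - b * a') := by
  have h41 : f e4 e1 = -1 := by rw [← ha.neg_eq, h14]
  have h32 : f e3 e2 = 1 := by rw [← ha.neg_eq, h23, neg_neg]
  have h21 : f e2 e1 = 0 := by rw [← ha.neg_eq, h12, neg_zero]
  have h31 : f e3 e1 = 0 := by rw [← ha.neg_eq, h13, neg_zero]
  have h24 : f e2 e4 = 0 := by rw [← ha.neg_eq, h42, neg_zero]
  have h34 : f e3 e4 = 0 := by rw [← ha.neg_eq, h43, neg_zero]
  simp only [map_add, map_smul, LinearMap.add_apply, LinearMap.smul_apply, smul_eq_mul, h14, h23,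
    h12, h13, h42, h43, h41, h32, h21, h31, h24, h34, ha.self_eq_zero]
  ring


lemma le_indepNum {K : Type*} [Field K] [Finite K] (f : LinearMap.BilinForm K (Fin 4 → K))
    (ha : f.IsAlt) (hn : f.Nondegenerate) {n : ℕ} (h : Big K n) :
    n ≤ (complexGraph f).indepNum := by
  classical
  obtain ⟨S, hS, hS2⟩ := h
  obtain ⟨e1, e2, e3, e4, h14, h23, h12, h13, h42, h43⟩ := exists_frame f ha hn
  have hval := form_value f ha h14 h23 h12 h13 h42 h43
  let vec : K × K × K → Fin 4 → K := fun x => e1 + x.1 • e2 + x.2.1 • e3 + x.2.2 • e4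
  have hvec : ∀ x y, f (vec x) (vec y) = dis x y := by
    intro x y
    simp only [vec]
    rw [hval]
    simp [dis]
  have hne : ∀ x, vec x ≠ 0 := by
    intro x h
    have h1 : f (vec x) e4 = 0 := by rw [h]; simp
    have h24 : f e2 e4 = 0 := by rw [← ha.neg_eq, h42, neg_zero]
    have h34 : f e3 e4 = 0 := by rw [← ha.neg_eq, h43, neg_zero]
    simp [vec, h14, h24, h34, ha.self_eq_zero] at h1
  have hdisc : ∀ x ∈ S, ∀ y ∈ S, x ≠ y → f (vec x) (vec y) ≠ 0 := by
    intro x hx y hy hxy h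
    rw [hvec] at h
    exact hS2 x hx y hy hxy h
  let pt : K × K × K → ℙ K (Fin 4 → K) := fun x => Projectivization.mk _ (vec x) (hne x)
  have hinj : Set.InjOn pt (S : Set (K × K × K)) := by
    intro x hx y hy h
    by_contra hxy
    simp only [pt] at h
    rw [Projectivization.mk_eq_mk_iff'] at h
    obtain ⟨a, ha'⟩ := h
    apply hdisc x hx y hy hxy
    rw [← ha', map_smul]
    simp [ha.self_eq_zero]
  have hcard : (S.image pt).card = S.card := Finset.card_image_of_injOn hinj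
  have : Finite (ℙ K (Fin 4 → K)) := Quotient.finite _
  have := Fintype.ofFinite (ℙ K (Fin 4 → K))
  refine hS.trans ?_
  rw [← hcard]
  apply SimpleGraph.IsIndepSet.card_le_indepNum
  intro X hX Y hY hXY hadj
  simp only [Finset.coe_image, Set.mem_image, Finset.mem_coe] at hX hY
  obtain ⟨x, hx, rfl⟩ := hX
  obtain ⟨y, hy, rfl⟩ := hY
  have hxy : x ≠ y := fun h => hXY (by rw [h])
  exact hdisc x hx y hy hxy (adj_zero f ha hadj)

/-- monotonicity of real powers of the field size -/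
lemma pow_le_aux {p : ℕ} (hp : 1 ≤ p) {h : ℕ} {a : ℝ} {m : ℕ} (hm : (h : ℝ) * a ≤ m) :
    ((p ^ h : ℕ) : ℝ) ^ a ≤ ((p ^ m : ℕ) : ℝ) := by
  push_cast
  rw [← Real.rpow_natCast, ← Real.rpow_natCast, ← Real.rpow_mul (by positivity)]
  exact Real.rpow_le_rpow_of_exponent_le (by exact_mod_cast hp) hm

/-- For every finite field `K` with `q` elements and every nondegenerate alternating form `f` on
`K^4` let `α` be the independence number of the graph of the linear complex of `f`. Then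
`q^(4/3) / 64 ≤ α`; if `q = p^h` with `p` prime and `p = 2` or `h = 1` or `gcd(h, 6) > 1` then
`q^(3/2) / 64 ≤ α`; if `q = r^2` then `r^3 ≤ α`; if `q = r^3` then `r^5 ≤ α`. -/
theorem result (K : Type*) [Field K] [Finite K] (f : LinearMap.BilinForm K (Fin 4 → K))
    (ha : f.IsAlt) (hn : f.Nondegenerate) :
    (Nat.card K : ℝ) ^ (4 / 3 : ℝ) / 64 ≤ ((complexGraph f).indepNum : ℝ) ∧
    (∀ p h : ℕ, p.Prime → Nat.card K = p ^ h → p = 2 ∨ h = 1 ∨ 1 < Nat.gcd h 6 →
      (Nat.card K : ℝ) ^ (3 / 2 : ℝ) / 64 ≤ ((complexGraph f).indepNum : ℝ)) ∧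
    (∀ r : ℕ, Nat.card K = r ^ 2 → r ^ 3 ≤ (complexGraph f).indepNum) ∧
    (∀ r : ℕ, Nat.card K = r ^ 3 → r ^ 5 ≤ (complexGraph f).indepNum) := by
  have := Fintype.ofFinite K
  obtain ⟨p₀, hchar⟩ := CharP.exists K
  obtain ⟨h₀, hp₀, hcard₀⟩ := FiniteField.card K p₀
  rw [← Nat.card_eq_fintype_card] at hcard₀
  have hfact : Fact p₀.Prime := ⟨hp₀⟩
  let _ : Algebra (ZMod p₀) K := ZMod.algebra K p₀
  have hp1 : 1 ≤ p₀ := hp₀.one_lt.le
  have hS : ∀ r : ℕ, Nat.card K = r ^ 2 → r ^ 3 ≤ (complexGraph f).indepNum :=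
    fun r hr => le_indepNum f ha hn (big_square hr)
  have hC : ∀ r : ℕ, Nat.card K = r ^ 3 → r ^ 5 ≤ (complexGraph f).indepNum :=
    fun r hr => le_indepNum f ha hn (big_cube hr)
  have h2 : ∀ p h : ℕ, p.Prime → Nat.card K = p ^ h → p = 2 ∨ h = 1 ∨ 1 < Nat.gcd h 6 →
      (Nat.card K : ℝ) ^ (3 / 2 : ℝ) / 64 ≤ ((complexGraph f).indepNum : ℝ) := by
    intro p h hp hcard hcase
    have hpos : (0 : ℝ) ≤ (Nat.card K : ℝ) ^ (3 / 2 : ℝ) := by positivity
    rcases hcase with rfl | rfl | hgcd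
    · have h3 : (2 : K) = 0 := by
        have h4 : ((Nat.card K : ℕ) : K) = 0 := by
          rw [Nat.card_eq_fintype_card]
          exact FiniteField.cast_card_eq_zero K
        rw [hcard] at h4
        push_cast at h4
        have h6 : h ≠ 0 := by
          rintro rfl
          have : 1 < Nat.card K := Finite.one_lt_card
          rw [hcard] at this
          norm_num at this
        exact (pow_eq_zero_iff h6).1 h4
      have h5 := le_indepNum f ha hn (big_even h3)
      have h6 : (Nat.card K : ℝ) ^ (3 / 2 : ℝ) ≤ ((Nat.card K ^ 2 : ℕ) : ℝ) := by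
        push_cast
        rw [← Real.rpow_natCast]
        apply Real.rpow_le_rpow_of_exponent_le
        · have : 1 ≤ Nat.card K := Nat.card_pos
          exact_mod_cast this
        · norm_num
      have h7 : ((Nat.card K ^ 2 : ℕ) : ℝ) ≤ ((complexGraph f).indepNum : ℝ) := by exact_mod_cast h5
      linarith
    · rw [pow_one] at hcard
      have hfact' : Fact p.Prime := ⟨hp⟩
      have hcp : p₀ = p := by
        have h3 : p₀ ∣ p := by
          rw [← hcard, hcard₀]
          exact dvd_pow_self p₀ h₀.ne_zero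
        exact (Nat.prime_dvd_prime_iff_eq hp₀ hp).1 h3
      subst hcp
      obtain ⟨m, hm, hB⟩ := big_prime (K := K) p₀
      have h5 := le_indepNum f ha hn hB
      have h6 : (m : ℝ) ≤ ((complexGraph f).indepNum : ℝ) := by exact_mod_cast h5
      rw [hcard]
      linarith
    · have h23 : 2 ∣ h ∨ 3 ∣ h := by
        by_contra hcon
        push Not at hcon
        have h3 : Nat.Coprime h 2 := ((Nat.prime_two.coprime_iff_not_dvd).2 hcon.1).symm
        have h4 : Nat.Coprime h 3 := ((Nat.prime_three.coprime_iff_not_dvd).2 hcon.2).symm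
        have h5 : Nat.Coprime h 6 := by
          have := Nat.Coprime.mul_right h3 h4
          simpa using this
        rw [Nat.Coprime] at h5
        omega
      rcases h23 with ⟨l, rfl⟩ | ⟨l, rfl⟩
      · have h3 := hS (p ^ l) (by rw [hcard, ← pow_mul, mul_comm])
        have h4 : ((p ^ l) ^ 3 : ℕ) = p ^ (3 * l) := by rw [← pow_mul, mul_comm]
        rw [h4] at h3
        have h5 : ((Nat.card K : ℕ) : ℝ) ^ (3 / 2 : ℝ) ≤ ((p ^ (3 * l) : ℕ) : ℝ) := by
          rw [hcard]
          apply pow_le_aux hp.one_lt.le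
          push_cast
          linarith
        have h6 : ((p ^ (3 * l) : ℕ) : ℝ) ≤ ((complexGraph f).indepNum : ℝ) := by exact_mod_cast h3
        linarith
      · have h3 := hC (p ^ l) (by rw [hcard, ← pow_mul, mul_comm])
        have h4 : ((p ^ l) ^ 5 : ℕ) = p ^ (5 * l) := by rw [← pow_mul, mul_comm]
        rw [h4] at h3
        have h5 : ((Nat.card K : ℕ) : ℝ) ^ (3 / 2 : ℝ) ≤ ((p ^ (5 * l) : ℕ) : ℝ) := by
          rw [hcard]
          apply pow_le_aux hp.one_lt.le
          push_cast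
          have : (0 : ℝ) ≤ l := by positivity
          linarith
        have h6 : ((p ^ (5 * l) : ℕ) : ℝ) ≤ ((complexGraph f).indepNum : ℝ) := by exact_mod_cast h3
        linarith
  refine ⟨?_, h2, hS, hC⟩
  by_cases hg : 1 < Nat.gcd h₀ 6
  · have h3 := h2 p₀ h₀ hp₀ hcard₀ (Or.inr (Or.inr hg))
    have h4 : (Nat.card K : ℝ) ^ (4 / 3 : ℝ) ≤ (Nat.card K : ℝ) ^ (3 / 2 : ℝ) := by
      apply Real.rpow_le_rpow_of_exponent_le
      · have : 1 ≤ Nat.card K := Nat.card_pos
        exact_mod_cast this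
      · norm_num
    linarith
  · have hmod : (h₀ : ℕ) % 6 = 1 ∨ (h₀ : ℕ) % 6 = 5 := by
      have h3 : Nat.gcd h₀ 6 = 1 := by
        have := Nat.gcd_pos_of_pos_right (h₀ : ℕ) (show 0 < 6 by norm_num)
        omega
      rw [Nat.gcd_comm, Nat.gcd_rec] at h3
      have h4 : (h₀ : ℕ) % 6 < 6 := Nat.mod_lt _ (by norm_num)
      generalize (h₀ : ℕ) % 6 = x at h3 h4
      interval_cases x <;> simp_all
    rcases hmod with hmod | hmod
    · obtain ⟨j, hj⟩ : ∃ j, (h₀ : ℕ) = 6 * j + 1 := ⟨(h₀ : ℕ) / 6, by omega⟩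
      obtain ⟨m, hm, hB⟩ := big_prime (K := ZMod p₀) p₀
      have h3 := HB_iter p₀ (HB_zero hB) j
      have h4 := le_indepNum f ha hn (HB_big (K := K) hcard₀ (by omega) h3)
      have h5 : ((p₀ ^ (8 * j) * m : ℕ) : ℝ) ≤ ((complexGraph f).indepNum : ℝ) := by
        exact_mod_cast h4
      have h6 : (Nat.card K : ℝ) ^ (4 / 3 : ℝ) ≤ (p₀ : ℝ) ^ (8 * j : ℕ) * (p₀ : ℝ) ^ (3 / 2 : ℝ) := by
        rw [hcard₀, hj]
        push_cast
        rw [← Real.rpow_natCast, ← Real.rpow_natCast, ← Real.rpow_mul (by positivity),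
          ← Real.rpow_add (by exact_mod_cast hp₀.pos)]
        apply Real.rpow_le_rpow_of_exponent_le (by exact_mod_cast hp1)
        push_cast
        linarith
      have h7 : (p₀ : ℝ) ^ (8 * j : ℕ) * ((p₀ : ℝ) ^ (3 / 2 : ℝ) / 64) ≤
          (p₀ : ℝ) ^ (8 * j : ℕ) * m := mul_le_mul_of_nonneg_left hm (by positivity)
      push_cast at h5
      linarith
    · obtain ⟨j, hj⟩ : ∃ j, (h₀ : ℕ) = 6 * j + 5 := ⟨(h₀ : ℕ) / 6, by omega⟩
      have h3 := HB_iter p₀ (HB_two p₀) j
      have h4 := le_indepNum f ha hn (HB_big (K := K) hcard₀ (by omega) h3)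
      rw [← pow_add] at h4
      have h5 : ((p₀ ^ (8 * j + 7) : ℕ) : ℝ) ≤ ((complexGraph f).indepNum : ℝ) := by
        exact_mod_cast h4
      have h6 : ((Nat.card K : ℕ) : ℝ) ^ (4 / 3 : ℝ) ≤ ((p₀ ^ (8 * j + 7) : ℕ) : ℝ) := by
        rw [hcard₀, hj]
        apply pow_le_aux hp1
        push_cast
        linarith
      have h7 : (0 : ℝ) ≤ ((Nat.card K : ℕ) : ℝ) ^ (4 / 3 : ℝ) := by positivity
      linarith

end Pool.Agent.Results.MP_f27806_co.AllPrimePowers
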