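import Pool.Agent.helper95.LC.Graph
import Pool.Agent.helper95.LK.Exc3

/-! # The exceptional prime powers for the graph of a linear complex of `PG(3, q)` -/

namespace Pool.Agent.Results.MP_f27806_co.ExceptionalPowers

open scoped LinearAlgebra.Projectivization
open Pool.Agent.helper95.LC Pool.Agent.helper95.LK Pool.Agent.helper11.SG

universe u

/-- For all `ε, δ > 0` there is a constant `C` such that for every `X` at most `C X ^ δ` numbers
`q ≤ X` are the number of elements of a finite field `K` such that for some nondegenerate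
alternating form `f` on `K ^ 4` the independence number of the graph of the linear complex of `f`
is less than `q ^ (3 / 2 - ε)`. -/
theorem result (ε δ : ℝ) (hε : 0 < ε) (hδ : 0 < δ) : ∃ C : ℝ, ∀ X : ℕ,
    (Set.ncard {q : ℕ | q ≤ X ∧ ∃ (K : Type u) (_ : Field K) (_ : Finite K)
      (f : LinearMap.BilinForm K (Fin 4 → K)), Nat.card K = q ∧ f.IsAlt ∧ f.Nondegenerate ∧
        ((complexGraph f).indepNum : ℝ) < (q : ℝ) ^ (3 / 2 - ε : ℝ)} : ℝ) ≤
      C * (X : ℝ) ^ δ := by
  classical
  obtain ⟨C, -, hC⟩ := exc_all.{u} hε hδ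
  refine ⟨C, fun X => ?_⟩
  set S : Set ℕ := {q : ℕ | q ≤ X ∧ ∃ (K : Type u) (_ : Field K) (_ : Finite K)
      (f : LinearMap.BilinForm K (Fin 4 → K)), Nat.card K = q ∧ f.IsAlt ∧ f.Nondegenerate ∧
        ((complexGraph f).indepNum : ℝ) < (q : ℝ) ^ (3 / 2 - ε : ℝ)} with hS
  have hfin : S.Finite := (Set.finite_Iic X).subset fun q hq => hq.1
  rw [Set.ncard_eq_toFinset_card S hfin]
  apply hC X
  intro q hq
  rw [Set.Finite.mem_toFinset] at hq
  obtain ⟨hqX, K, i1, i2, f, hK, ha, hn, hlt⟩ := hq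
  refine ⟨hqX, K, i1, i2, hK, fun m hm => ?_⟩
  have h1 : m ≤ (complexGraph f).indepNum := le_indepNum f ha hn hm
  have h2 : (m : ℝ) ≤ (complexGraph f).indepNum := by exact_mod_cast h1
  exact h2.trans_lt hlt

end Pool.Agent.Results.MP_f27806_co.ExceptionalPowers
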